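import Pool.Agent.Helper13.ZL.Stmts

/-!
# ZL, module DEG: degrees of Kummer extensions
-/

set_option autoImplicit false

open scoped Classical

namespace Pool.Agent.Helper13.ZL

open IntermediateField Module Polynomial

/-- the degree of a cyclotomic extension of level prime to the discriminant -/
theorem deg_cyc (k L : Type) [Field k] [NumberField k] [Field L] [NumberField L] [Algebra k L]
    (m : ℕ) [NeZero m] [IsCyclotomicExtension {m} k L]
    (h : IsCoprime (m : ℤ) (NumberField.discr k)) : Module.finrank k L = m.totient := by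
  have hζ := IsCyclotomicExtension.zeta_spec m k L
  set ζ := IsCyclotomicExtension.zeta m k L with hzd
  have h1 : IsCyclotomicExtension {m} ℚ ℚ⟮ζ⟯ := hζ.intermediateField_adjoin_isCyclotomicExtension ℚ
  have h2 : IsGalois ℚ ℚ⟮ζ⟯ := IsCyclotomicExtension.isGalois {m} ℚ _
  have e : k ≃ₐ[ℚ] (IsScalarTower.toAlgHom ℚ k L).fieldRange :=
    AlgEquiv.ofInjectiveField (IsScalarTower.toAlgHom ℚ k L)
  have hd : NumberField.discr (IsScalarTower.toAlgHom ℚ k L).fieldRange = NumberField.discr k :=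
    (NumberField.discr_eq_discr_of_algEquiv k e).symm
  have hm : (NumberField.discr ℚ⟮ζ⟯).natAbs ∣ m ^ m.totient := by
    rw [IsCyclotomicExtension.Rat.natAbs_discr m ℚ⟮ζ⟯]
    exact Nat.div_dvd_of_dvd (Nat.prod_primeFactors_pow_totient_ediv_dvd (NeZero.pos m))
  have hc : IsCoprime (NumberField.discr ℚ⟮ζ⟯)
      (NumberField.discr (IsScalarTower.toAlgHom ℚ k L).fieldRange) := by
    rw [hd]
    have h3 : IsCoprime ((m : ℤ) ^ m.totient) (NumberField.discr k) := h.pow_left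
    have h4 : NumberField.discr ℚ⟮ζ⟯ ∣ (m : ℤ) ^ m.totient := by
      rw [← Int.natAbs_dvd, ← Nat.cast_pow]
      exact Int.natCast_dvd_natCast.2 hm
    exact h3.of_isCoprime_of_dvd_left h4
  have hl := NumberField.linearDisjoint_of_isGalois_isCoprime_discr L ℚ⟮ζ⟯
    (IsScalarTower.toAlgHom ℚ k L).fieldRange hc
  have ht : ℚ⟮ζ⟯ ⊔ (IsScalarTower.toAlgHom ℚ k L).fieldRange = ⊤ := by
    rw [eq_top_iff]
    intro x _
    have hx : x ∈ Algebra.adjoin k ({ζ} : Set L) := by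
      rw [IsCyclotomicExtension.adjoin_primitive_root_eq_top hζ]
      trivial
    induction hx using Algebra.adjoin_induction with
    | mem x hx =>
      rw [Set.mem_singleton_iff] at hx
      rw [hx]
      exact (le_sup_left : ℚ⟮ζ⟯ ≤ _) (mem_adjoin_simple_self ℚ ζ)
    | algebraMap r =>
      exact (le_sup_right : (IsScalarTower.toAlgHom ℚ k L).fieldRange ≤ _) ⟨r, rfl⟩
    | add x y _ _ hx hy => exact add_mem (hx trivial) (hy trivial)
    | mul x y _ _ hx hy => exact mul_mem (hx trivial) (hy trivial)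
  have hs := hl.finrank_sup
  rw [ht, IntermediateField.finrank_top', IsCyclotomicExtension.Rat.finrank m ℚ⟮ζ⟯,
    ← e.toLinearEquiv.finrank_eq, ← Module.finrank_mul_finrank ℚ k L, mul_comm] at hs
  exact Nat.eq_of_mul_eq_mul_right Module.finrank_pos hs

/-- `a` does not become an `ℓ`-th power in a cyclotomic extension -/
theorem deg_npow (k L : Type) [Field k] [NumberField k] [Field L] [NumberField L] [Algebra k L]
    (m : ℕ) [NeZero m] [IsCyclotomicExtension {m} k L] {ℓ : ℕ} (hℓ : ℓ.Prime) (h2 : 2 < ℓ)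
    (hc : IsCoprime (ℓ : ℤ) (NumberField.discr k)) (hm : ℓ ∣ m) {a : k} (ha : ∀ b : k, b ^ ℓ ≠ a)
    (β : L) : β ^ ℓ ≠ algebraMap k L a := by
  intro hβ
  have hζ := IsCyclotomicExtension.zeta_spec m k L
  obtain ⟨c, hc'⟩ := hm
  have hξ : IsPrimitiveRoot (IsCyclotomicExtension.zeta m k L ^ c) ℓ :=
    hζ.pow (NeZero.pos m) (by rw [hc', mul_comm])
  set ξ := IsCyclotomicExtension.zeta m k L ^ c with hξd
  have hab : IsAbelianGalois k L := IsCyclotomicExtension.isAbelianGalois {m} k L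
  have hirr := X_pow_sub_C_irreducible_of_prime hℓ ha
  have hmin : minpoly k β = X ^ ℓ - C a :=
    (minpoly.eq_of_irreducible_of_monic hirr (by simp [hβ])
      (monic_X_pow_sub_C a hℓ.ne_zero)).symm
  have hfin : finrank k k⟮β⟯ = ℓ := by
    rw [IntermediateField.adjoin.finrank (Algebra.IsIntegral.isIntegral β), hmin,
      natDegree_X_pow_sub_C]
  have hroot : aeval (ξ * β) (minpoly k β) = 0 := by
    rw [hmin]
    simp [mul_pow, hξ.pow_eq_one, hβ]
  obtain ⟨σ, hσ⟩ := minpoly.exists_algEquiv_of_root' (Algebra.IsAlgebraic.isAlgebraic β) hroot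
  have hnorm : k⟮β⟯.map (σ : L →ₐ[k] L) = k⟮β⟯ := normal_iff_forall_map_eq'.1 inferInstance σ
  have hmem : ξ * β ∈ k⟮β⟯ := by
    rw [← hnorm, ← hσ]
    exact ⟨β, mem_adjoin_simple_self k β, rfl⟩
  have hβ0 : β ≠ 0 := by
    intro h0
    apply ha 0
    apply (algebraMap k L).injective
    rw [← hβ, h0, zero_pow hℓ.ne_zero, zero_pow hℓ.ne_zero, map_zero]
  have hξm : ξ ∈ k⟮β⟯ := by
    have := div_mem hmem (mem_adjoin_simple_self k β)
    rwa [mul_div_cancel_right₀ _ hβ0] at this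
  have hle : k⟮ξ⟯ ≤ k⟮β⟯ := adjoin_simple_le_iff.2 hξm
  have hdvd : finrank k k⟮ξ⟯ ∣ finrank k k⟮β⟯ := IntermediateField.finrank_dvd_of_le_right hle
  have : NeZero ℓ := ⟨hℓ.ne_zero⟩
  have h3 : IsCyclotomicExtension {ℓ} k k⟮ξ⟯ := hξ.intermediateField_adjoin_isCyclotomicExtension k
  rw [deg_cyc k k⟮ξ⟯ ℓ hc, hfin, Nat.totient_prime hℓ] at hdvd
  have h4 : ℓ - 1 ∣ 1 := by
    have := Nat.dvd_sub hdvd (dvd_refl (ℓ - 1))
    rwa [Nat.sub_sub_self hℓ.one_le] at this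
  have := Nat.le_of_dvd one_pos h4
  omega

/-- degree of a Kummer-type extension with distinct prime exponents -/
theorem deg_kum {K A : Type} [Field K] [Field A] [Algebra K A] (θ : ℕ → A) (a : ℕ → K)
    (S : Finset ℕ) (hS : ∀ ℓ ∈ S, ℓ.Prime ∧ θ ℓ ^ ℓ = algebraMap K A (a ℓ) ∧
      ∀ b : K, b ^ ℓ ≠ a ℓ) : finrank K (adjoin K (θ '' (S : Set ℕ))) = ∏ ℓ ∈ S, ℓ := by
  induction S using Finset.induction_on with
  | empty => simp
  | insert ℓ S hℓS ih =>
    have ih' := ih fun l hl => hS l (Finset.mem_insert_of_mem hl)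
    obtain ⟨hp, hθ, ha⟩ := hS ℓ (Finset.mem_insert_self _ _)
    have hint : IsIntegral K (θ ℓ) :=
      ⟨X ^ ℓ - C (a ℓ), monic_X_pow_sub_C _ hp.ne_zero, by simp [hθ]⟩
    have hmin : minpoly K (θ ℓ) = X ^ ℓ - C (a ℓ) :=
      (minpoly.eq_of_irreducible_of_monic (X_pow_sub_C_irreducible_of_prime hp ha)
        (by simp [hθ]) (monic_X_pow_sub_C _ hp.ne_zero)).symm
    have hfin : finrank K K⟮θ ℓ⟯ = ℓ := by
      rw [IntermediateField.adjoin.finrank hint, hmin, natDegree_X_pow_sub_C]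
    have hcop : (finrank K K⟮θ ℓ⟯).Coprime (finrank K (adjoin K (θ '' (S : Set ℕ)))) := by
      rw [hfin, ih']
      apply Nat.Coprime.prod_right
      intro l hl
      rw [Nat.coprime_primes hp (hS l (Finset.mem_insert_of_mem hl)).1]
      rintro rfl
      exact hℓS hl
    rw [Finset.coe_insert, Set.image_insert_eq, Set.insert_eq, adjoin_union,
      (LinearDisjoint.of_finrank_coprime hcop).finrank_sup, hfin, ih', Finset.prod_insert hℓS]

/-- the primes of a squarefree number -/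
theorem deg_order {G : Type} [Monoid G] (w : G) (D : Finset ℕ) (hD : ∀ ℓ ∈ D, ℓ.Prime)
    (hw : w ^ (∏ ℓ ∈ D, ℓ) = 1) (hℓ : ∀ ℓ ∈ D, w ^ ((∏ l ∈ D, l) / ℓ) = 1) : w = 1 := by
  rw [← orderOf_eq_one_iff]
  by_contra hne
  obtain ⟨p, hp, hpd⟩ := Nat.exists_prime_and_dvd hne
  have h1 : p ∣ ∏ ℓ ∈ D, ℓ := hpd.trans (orderOf_dvd_of_pow_eq_one hw)
  obtain ⟨ℓ, hl, hpl⟩ := (Nat.Prime.prime hp).dvd_finsetProd_iff _ |>.1 h1
  have h2 : p = ℓ := (Nat.prime_dvd_prime_iff_eq hp (hD ℓ hl)).1 hpl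
  subst h2
  have h3 := hpd.trans (orderOf_dvd_of_pow_eq_one (hℓ p hl))
  have h4 : (∏ l ∈ D, l) / p = ∏ l ∈ D.erase p, l := by
    rw [← Finset.mul_prod_erase D (fun l => l) hl, Nat.mul_div_cancel_left _ hp.pos]
  rw [h4] at h3
  obtain ⟨l, hl', hpl'⟩ := (Nat.Prime.prime hp).dvd_finsetProd_iff _ |>.1 h3
  have := (Nat.prime_dvd_prime_iff_eq hp (hD l (Finset.mem_of_mem_erase hl'))).1 hpl'
  exact (Finset.ne_of_mem_erase hl') this.symm

theorem deg_tot (D : Finset ℕ) (hD : ∀ ℓ ∈ D, ℓ.Prime) :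
    (∏ ℓ ∈ D, ℓ).totient = ∏ ℓ ∈ D, (ℓ - 1) := by
  induction D using Finset.induction_on with
  | empty => simp
  | insert ℓ D hl ih =>
    have hp := hD ℓ (Finset.mem_insert_self _ _)
    rw [Finset.prod_insert hl, Finset.prod_insert hl, Nat.totient_mul, Nat.totient_prime hp,
      ih fun l h => hD l (Finset.mem_insert_of_mem h)]
    apply Nat.Coprime.prod_right
    intro l h
    rw [Nat.coprime_primes hp (hD l (Finset.mem_insert_of_mem h))]
    rintro rfl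
    exact hl h

theorem st_DEG : ST_DEG := by
  intro k _ _ a Λ hΛ D₁ D₂ h1 h2 hdis
  set D := D₁ ∪ D₂ with hDd
  have hDΛ : D ⊆ Λ := Finset.union_subset h1 h2
  have hD : ∀ ℓ ∈ D, ℓ.Prime := fun ℓ hl => (hΛ ℓ (hDΛ hl)).1
  set m := ∏ ℓ ∈ D, ℓ with hmd
  have hm0 : m ≠ 0 := Finset.prod_ne_zero_iff.2 fun ℓ hl => (hD ℓ hl).ne_zero
  have : NeZero m := ⟨hm0⟩
  have hdvd : ∀ ℓ ∈ D, ℓ ∣ m := fun ℓ hl => Finset.dvd_prod_of_mem _ hl
  have hcm : IsCoprime (m : ℤ) (NumberField.discr k) := by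
    rw [hmd, Nat.cast_prod]
    exact IsCoprime.prod_left fun ℓ hl => (hΛ ℓ (hDΛ hl)).2.2.1
  set A := AlgebraicClosure k with hA
  obtain ⟨z, hz⟩ := HasEnoughRootsOfUnity.exists_primitiveRoot A m
  have hcyc : IsCyclotomicExtension {m} k k⟮z⟯ :=
    hz.intermediateField_adjoin_isCyclotomicExtension k
  have hnf : NumberField k⟮z⟯ := IsCyclotomicExtension.numberField {m} k k⟮z⟯
  have hth : ∀ ℓ : ℕ, ∃ t : A, ℓ ∈ D₂ → t ^ ℓ = algebraMap k A (a ℓ) := by
    intro ℓ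
    by_cases hl : ℓ ∈ D₂
    · obtain ⟨t, ht⟩ := IsAlgClosed.exists_pow_nat_eq (algebraMap k A (a ℓ))
        (hD ℓ (Finset.mem_union_right _ hl)).pos
      exact ⟨t, fun _ => ht⟩
    · exact ⟨0, fun h => absurd h hl⟩
  choose t ht using hth
  -- degree
  have hk2 : finrank k⟮z⟯ (adjoin k⟮z⟯ (t '' (D₂ : Set ℕ))) = ∏ ℓ ∈ D₂, ℓ := by
    refine deg_kum t (fun ℓ => algebraMap k k⟮z⟯ (a ℓ)) D₂ fun ℓ hl => ?_
    have hlD : ℓ ∈ D := Finset.mem_union_right _ hl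
    obtain ⟨g1, g2, g3, g4⟩ := hΛ ℓ (hDΛ hlD)
    refine ⟨g1, ?_, deg_npow k k⟮z⟯ m g1 g2 g3 (hdvd ℓ hlD) g4⟩
    rw [ht ℓ hl]
    rfl
  have hk1 : finrank k k⟮z⟯ = ∏ ℓ ∈ D, (ℓ - 1) := by
    rw [deg_cyc k k⟮z⟯ m hcm, hmd, deg_tot D hD]
  have hadj : (adjoin k⟮z⟯ (t '' (D₂ : Set ℕ))).restrictScalars k =
      adjoin k ({z} ∪ t '' (D₂ : Set ℕ)) := adjoin_adjoin_left k {z} (t '' (D₂ : Set ℕ))
  set F : IntermediateField k A := adjoin k ({z} ∪ t '' (D₂ : Set ℕ)) with hFd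
  have hF : finrank k F = (∏ ℓ ∈ D₁, (ℓ - 1)) * ∏ ℓ ∈ D₂, (ℓ * (ℓ - 1)) := by
    calc finrank k F = finrank k ((adjoin k⟮z⟯ (t '' (D₂ : Set ℕ))).restrictScalars k) := by
          rw [hadj]
      _ = finrank k (adjoin k⟮z⟯ (t '' (D₂ : Set ℕ))) := rfl
      _ = finrank k k⟮z⟯ * finrank k⟮z⟯ (adjoin k⟮z⟯ (t '' (D₂ : Set ℕ))) :=
          (Module.finrank_mul_finrank k k⟮z⟯ _).symm
      _ = (∏ ℓ ∈ D₁, (ℓ - 1)) * ∏ ℓ ∈ D₂, (ℓ * (ℓ - 1)) := by
          rw [hk1, hk2, hDd, Finset.prod_union hdis, Finset.prod_mul_distrib]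
          ring
  have hFp : 0 < finrank k F := by
    rw [hF]
    refine Nat.mul_pos (Finset.prod_pos fun ℓ hl => ?_) (Finset.prod_pos fun ℓ hl => ?_)
    · have := (hD ℓ (Finset.mem_union_left _ hl)).two_le
      omega
    · have := (hD ℓ (Finset.mem_union_right _ hl)).two_le
      exact Nat.mul_pos (by omega) (by omega)
  have hfd : FiniteDimensional k F := FiniteDimensional.of_finrank_pos hFp
  have hNF : NumberField F := NumberField.of_module_finite k F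
  have hzF : z ∈ F := subset_adjoin _ _ (Or.inl rfl)
  have htF : ∀ ℓ ∈ D₂, t ℓ ∈ F := fun ℓ hl => subset_adjoin _ _ (Or.inr ⟨ℓ, hl, rfl⟩)
  have hnor : Normal k F := by
    rw [normal_iff_forall_map_le]
    intro σ
    rw [hFd, adjoin_map, adjoin_le_iff]
    rintro _ ⟨x, hx | ⟨ℓ, hl, rfl⟩, rfl⟩
    · rw [Set.mem_singleton_iff] at hx
      rw [hx]
      have h3 : σ z ^ m = 1 := by rw [← map_pow, hz.pow_eq_one, map_one]
      obtain ⟨i, -, hi⟩ := hz.eq_pow_of_pow_eq_one h3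
      rw [← hi]
      exact pow_mem hzF i
    · have hlp := hD ℓ (Finset.mem_union_right _ hl)
      by_cases h0 : t ℓ = 0
      · rw [h0, map_zero]
        exact F.zero_mem
      · have h3 : (σ (t ℓ) / t ℓ) ^ ℓ = 1 := by
          rw [div_pow, ← map_pow, ht ℓ hl, AlgHom.commutes, ← ht ℓ hl, div_self (pow_ne_zero _ h0)]
        have h4 : (σ (t ℓ) / t ℓ) ^ m = 1 := by
          obtain ⟨c, hc⟩ := hdvd ℓ (Finset.mem_union_right _ hl)
          rw [hc, pow_mul, h3, one_pow]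
        obtain ⟨i, -, hi⟩ := hz.eq_pow_of_pow_eq_one h4
        have h5 : σ (t ℓ) = z ^ i * t ℓ := by
          rw [hi, div_mul_cancel₀ _ h0]
        show σ (t ℓ) ∈ F
        rw [h5]
        exact mul_mem (pow_mem hzF i) (htF ℓ hl)
  have hgal : IsGalois k F := { }
  have hzF' : IsPrimitiveRoot (⟨z, hzF⟩ : F) m := IsPrimitiveRoot.coe_submonoidClass_iff.1 hz
  refine ⟨F, inferInstance, hNF, inferInstance, hgal, fun ℓ => (⟨z, hzF⟩ : F) ^ (m / ℓ),
    fun ℓ => if h : ℓ ∈ D₂ then ⟨t ℓ, htF ℓ h⟩ else 0, hF, ?_, ?_, ?_⟩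
  · intro ℓ hl
    exact hzF'.pow (Nat.pos_of_ne_zero hm0) (Nat.div_mul_cancel (hdvd ℓ hl)).symm
  · intro ℓ hl
    simp only [hl, dite_true]
    apply Subtype.ext
    exact ht ℓ hl
  · intro τ hτ1 hτ2
    have hzne : (⟨z, hzF⟩ : F) ≠ 0 := hzF'.ne_zero hm0
    have e1 : τ ⟨z, hzF⟩ * (⟨z, hzF⟩ : F)⁻¹ = 1 := by
      apply deg_order _ D hD
      · rw [mul_pow, inv_pow, ← map_pow, ← hmd, hzF'.pow_eq_one, map_one, inv_one, one_mul]
      · intro ℓ hl
        rw [mul_pow, inv_pow, ← map_pow, ← hmd, hτ1 ℓ hl, mul_inv_cancel₀ (pow_ne_zero _ hzne)]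
    have e2 : τ ⟨z, hzF⟩ = ⟨z, hzF⟩ := by
      rw [← div_eq_mul_inv, div_eq_one_iff_eq hzne] at e1
      exact e1
    refine AlgEquiv.ext fun x => ?_
    obtain ⟨x, hx⟩ := x
    show τ ⟨x, hx⟩ = ⟨x, hx⟩
    induction hx using adjoin_induction with
    | mem x hx =>
      rcases hx with hx | ⟨ℓ, hl, hx⟩
      · rw [Set.mem_singleton_iff] at hx
        subst hx
        exact e2
      · subst hx
        have := hτ2 ℓ hl
        simp only [Finset.mem_coe.1 hl, dite_true] at this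
        exact this
    | algebraMap c => exact τ.commutes c
    | add x y hx hy h3 h4 =>
      have e : (⟨x + y, add_mem hx hy⟩ : F) = ⟨x, hx⟩ + ⟨y, hy⟩ := rfl
      rw [e, map_add, h3, h4]
    | inv x hx h3 =>
      have e : (⟨x⁻¹, inv_mem hx⟩ : F) = (⟨x, hx⟩ : F)⁻¹ := rfl
      rw [e, map_inv₀, h3]
    | mul x y hx hy h3 h4 =>
      have e : (⟨x * y, mul_mem hx hy⟩ : F) = ⟨x, hx⟩ * ⟨y, hy⟩ := rfl
      rw [e, map_mul, h3, h4]

end Pool.Agent.Helper13.ZL
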